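import Pool.Agent.helper73.NH.Spec

/-!
Row `nh:UBD` (MP_a2a22c_al): unipotent subgroups of Zariski dense subgroups of infinite index.
-/

set_option autoImplicit false

namespace Pool.Agent.NH

open Matrix Module Pool.Agent.PR Pool.Agent.SHL

theorem UBD_mono {G : Type} [Group G] (hHA : HA_stmt) {a b : ℕ} (hab : b ≤ a) {H : Subgroup G}
    (h : Hi a H) : Hi b H := by
  induction a, hab using Nat.le_induction with
  | base => exact h
  | succ a hab ih => exact ih ((hHA G).2.1 a H h)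

theorem UBD_one {G : Type} [Group G] {U' : Subgroup G} (h : Hi 1 U') : ∃ g ∈ U', g ≠ 1 := by
  obtain ⟨K, L, hKL, hLU, hn, ⟨g, hg, hgj⟩, -⟩ := h
  refine ⟨g, hLU hg, ?_⟩
  rintro rfl
  exact hgj 1 one_pos (by rw [one_pow]; exact K.one_mem)

theorem UBD_fix (hHA : HA_stmt) (hUST : UST_stmt) {n : ℕ} {Q : Type} [Group Q]
    (ρ : Q →* Module.End ℚ (Fin n → ℚ)) (U : Subgroup Q) (M : Submodule ℚ (Fin n → ℚ))
    (hnil : ∀ u ∈ U, IsNilpotent (ρ u - 1)) (hM : ∀ u ∈ U, ∀ v, ρ u v - v ∈ M) {a : ℕ}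
    (ha : finrank ℚ M < a) (hU : Hi a U) (v : Fin n → ℚ) : ∃ u ∈ U, u ≠ 1 ∧ ρ u v = v := by
  have h1 : Hi (1 + finrank ℚ M) U := UBD_mono hHA (by omega) hU
  obtain ⟨U', hU', hfix, hHi⟩ := hUST (Fin n → ℚ) Q ρ U M hnil hM 1 h1 v
  obtain ⟨g, hg, hg1⟩ := UBD_one hHi
  exact ⟨g, hU' hg, hg1, hfix g hg⟩

/-- the standard representation -/
def UBD_rho {n : ℕ} (P : Subgroup (Pool.Agent.PR.SLZ n)) : P →* Module.End ℚ (Fin n → ℚ) where
  toFun g := Matrix.toLin' (stdM ℚ (g : Pool.Agent.PR.SLZ n))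
  map_one' := by
    rw [Subgroup.coe_one, stdM_one, Matrix.toLin'_one]
    rfl
  map_mul' g h := by
    rw [Subgroup.coe_mul, stdM_mul, Matrix.toLin'_mul]
    rfl

/-- the contragredient representation -/
def UBD_rho' {n : ℕ} (P : Subgroup (Pool.Agent.PR.SLZ n)) : P →* Module.End ℚ (Fin n → ℚ) where
  toFun g := Matrix.toLin' (stdM ℚ ((g : Pool.Agent.PR.SLZ n)⁻¹))ᵀ
  map_one' := by
    rw [Subgroup.coe_one, inv_one, stdM_one, Matrix.transpose_one, Matrix.toLin'_one]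
    rfl
  map_mul' g h := by
    rw [Subgroup.coe_mul, _root_.mul_inv_rev, stdM_mul, Matrix.transpose_mul, Matrix.toLin'_mul]
    rfl

theorem UBD_rho_apply {n : ℕ} (P : Subgroup (Pool.Agent.PR.SLZ n)) (g : P) (v : Fin n → ℚ) :
    UBD_rho P g v = stdM ℚ (g : Pool.Agent.PR.SLZ n) *ᵥ v := Matrix.toLin'_apply _ _

theorem UBD_rho'_apply {n : ℕ} (P : Subgroup (Pool.Agent.PR.SLZ n)) (g : P) (v : Fin n → ℚ) :
    UBD_rho' P g v = v ᵥ* stdM ℚ ((g : Pool.Agent.PR.SLZ n)⁻¹) := by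
  have h : UBD_rho' P g v = (stdM ℚ ((g : Pool.Agent.PR.SLZ n)⁻¹))ᵀ *ᵥ v := Matrix.toLin'_apply _ _
  rw [h, Matrix.mulVec_transpose]

theorem UBD_nil {n : ℕ} {A : Matrix (Fin n) (Fin n) ℚ} (h : IsNilpotent (A - 1)) :
    IsNilpotent ((Matrix.toLin' A : Module.End ℚ (Fin n → ℚ)) - 1) := by
  have h1 := h.map (Matrix.toLinAlgEquiv' : Matrix (Fin n) (Fin n) ℚ ≃ₐ[ℚ] _)
  rw [map_sub, map_one] at h1
  exact h1

theorem UBD_nilT {n : ℕ} {A : Matrix (Fin n) (Fin n) ℚ} (h : IsNilpotent (A - 1)) :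
    IsNilpotent (Aᵀ - 1) := by
  obtain ⟨k, hk⟩ := h
  refine ⟨k, ?_⟩
  have h1 : Aᵀ - 1 = (A - 1)ᵀ := by rw [Matrix.transpose_sub, Matrix.transpose_one]
  rw [h1, ← Matrix.transpose_pow, hk, Matrix.transpose_zero]

/-- **UBD** -/
theorem UBD (hHA : HA_stmt) (hUST : UST_stmt) (hGVF : GVF_stmt) : UBD_stmt := by
  intro n hn H P hZ hPH hfi U a hU hnil
  have hA : U.map P.subtype ≤ H := by
    rintro x ⟨y, hy, rfl⟩
    exact hPH y.2
  have hAn : ∀ x ∈ U.map P.subtype, IsNilpotent (stdM ℚ x - 1) := by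
    rintro x ⟨y, hy, rfl⟩
    exact hnil y hy
  refine ⟨?_, ?_⟩
  · intro M hM
    by_contra hlt
    apply hfi
    refine hGVF n hn H (U.map P.subtype) hZ hA hAn (Or.inl ?_)
    intro v
    obtain ⟨u, hu, hu1, hv⟩ := UBD_fix hHA hUST (UBD_rho P) U M (fun u hu => UBD_nil (hnil u hu))
      (fun u hu v => by rw [UBD_rho_apply]; exact hM u hu v) (not_le.1 hlt) hU v
    refine ⟨(u : Pool.Agent.PR.SLZ n), ⟨u, hu, rfl⟩, ?_, ?_⟩
    · intro h
      exact hu1 (Subtype.ext h)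
    · rw [← UBD_rho_apply]
      exact hv
  · intro L hL
    by_contra hlt
    apply hfi
    refine hGVF n hn H (U.map P.subtype) hZ hA hAn (Or.inr ?_)
    intro v
    set M : Submodule ℚ (Fin n → ℚ) :=
      L.dualAnnihilator.comap (dotProductEquiv ℚ (Fin n)).toLinearMap with hMdef
    have hMmem : ∀ w : Fin n → ℚ, (∀ l ∈ L, w ⬝ᵥ l = 0) → w ∈ M := by
      intro w hw
      rw [hMdef, Submodule.mem_comap, Submodule.mem_dualAnnihilator]
      intro l hl
      exact hw l hl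
    have hMrk : finrank ℚ M + finrank ℚ L = n := by
      have h1 : finrank ℚ M = finrank ℚ L.dualAnnihilator := by
        have h0 : M = L.dualAnnihilator.map (dotProductEquiv ℚ (Fin n)).symm.toLinearMap := by
          rw [hMdef]
          exact Submodule.comap_equiv_eq_map_symm _ _
        rw [h0]
        exact LinearEquiv.finrank_map_eq (dotProductEquiv ℚ (Fin n)).symm _
      have h2 := Subspace.finrank_add_finrank_dualAnnihilator_eq L
      have h3 : finrank ℚ (Fin n → ℚ) = n := by simp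
      omega
    obtain ⟨u, hu, hu1, hv⟩ := UBD_fix hHA hUST (UBD_rho' P) U M
      (fun u hu => UBD_nil (UBD_nilT (by
        have := hnil u⁻¹ (U.inv_mem hu)
        rw [Subgroup.coe_inv] at this
        exact this)))
      (fun u hu w => by
        rw [UBD_rho'_apply]
        apply hMmem
        intro l hl
        have h1 := hL u⁻¹ (U.inv_mem hu) l hl
        rw [Subgroup.coe_inv] at h1
        rw [sub_dotProduct, ← Matrix.dotProduct_mulVec, h1, sub_self]) (by omega) hU v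
    refine ⟨(u : Pool.Agent.PR.SLZ n)⁻¹, ⟨u⁻¹, U.inv_mem hu, rfl⟩, ?_, ?_⟩
    · intro h
      exact hu1 (Subtype.ext (inv_eq_one.1 h))
    · rw [← UBD_rho'_apply]
      exact hv

end Pool.Agent.NH
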